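import Pool.Agent.Q218.HB.Stm

/-!
# Project HB (helper218): job WARD (helper123)
-/

set_option autoImplicit false

open Matrix

namespace Pool.Agent.Q123.HB

open Pool.Agent.Q218.HB

theorem ward (inv : S_INV) : S_WARD := by
  intro Λ _ _ h V z hs hz x
  obtain ⟨h1, h2, h3⟩ := inv Λ h V z hs hz.ne'
  set H : Matrix Λ Λ ℂ := Hm h V with hH
  set g : Matrix Λ Λ ℂ := G h V z with hg
  have hHs : H.conjTranspose = H := by
    ext a b
    rw [conjTranspose_apply, hH]
    simp only [Hm, star_add, Complex.star_def, Complex.conj_ofReal, hs b a]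
    by_cases hab : a = b
    · subst hab
      simp
    · rw [if_neg hab, if_neg (fun h => hab h.symm), map_zero]
  have e1 : g.conjTranspose * (H - (starRingEnd ℂ z) • (1 : Matrix Λ Λ ℂ)) = 1 := by
    have e0 := congrArg Matrix.conjTranspose h1
    rw [conjTranspose_mul, conjTranspose_sub, conjTranspose_smul, conjTranspose_one, hHs] at e0
    exact e0
  have e2 : g - g.conjTranspose = (z - starRingEnd ℂ z) • (g.conjTranspose * g) := by
    have e3 : g.conjTranspose * (H - (starRingEnd ℂ z) • (1 : Matrix Λ Λ ℂ)) * g = g := by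
      rw [e1, Matrix.one_mul]
    have e4 : g.conjTranspose * ((H - z • (1 : Matrix Λ Λ ℂ)) * g) = g.conjTranspose := by
      rw [h1, Matrix.mul_one]
    calc g - g.conjTranspose = g.conjTranspose * (H - (starRingEnd ℂ z) • (1 : Matrix Λ Λ ℂ)) * g -
          g.conjTranspose * ((H - z • (1 : Matrix Λ Λ ℂ)) * g) := by rw [e3, e4]
      _ = (z - starRingEnd ℂ z) • (g.conjTranspose * g) := by
          rw [← Matrix.mul_assoc, ← Matrix.sub_mul, ← Matrix.mul_sub, sub_sub_sub_cancel_left,
            ← sub_smul, Matrix.mul_smul, Matrix.mul_one, Matrix.smul_mul]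
  have e5 := congrFun (congrFun e2 x) x
  rw [Matrix.sub_apply, Matrix.smul_apply, Matrix.mul_apply, conjTranspose_apply] at e5
  have e6 : ∑ y, g.conjTranspose x y * g y x = ((∑ y, ‖g x y‖ ^ 2 : ℝ) : ℂ) := by
    rw [Complex.ofReal_sum]
    refine Finset.sum_congr rfl fun y _ => ?_
    rw [conjTranspose_apply, h3 y x, Complex.star_def, ← Complex.normSq_eq_conj_mul_self,
      Complex.normSq_eq_norm_sq]
  rw [e6] at e5
  have e7 := congrArg Complex.im e5
  have e8 : (z - starRingEnd ℂ z) = ((2 * z.im : ℝ) : ℂ) * Complex.I := by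
    rw [Complex.sub_conj]
  rw [e8] at e7
  simp only [Complex.star_def, Complex.sub_im, Complex.conj_im, smul_eq_mul, Complex.mul_im,
    Complex.mul_re, Complex.ofReal_re, Complex.ofReal_im, Complex.I_re, Complex.I_im] at e7
  rw [eq_div_iff hz.ne']
  linarith

end Pool.Agent.Q123.HB
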